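import Pool.Agent.K3h66.TO.Fml2

/-!
# Brick FML: the family of the coordinates
-/

set_option autoImplicit false
set_option linter.unusedSectionVars false

open NumberField

namespace Pool.Agent.K3h66.TO.F

open Pool.Agent.Y223.G Pool.Agent.W418.LU2 Pool.Agent.R383.TM Module
open Pool.Agent.K3h75.TO

section wild

variable {E M : Type} [Field E] [NumberField E] [Field M] [NumberField M] [Algebra E M]
  [Finite (M ≃ₐ[E] M)]
  {Λ : Type} [AddCommGroup Λ] [DistribMulAction (M ≃ₐ[E] M) Λ] {K : Type} [Field K] [Algebra M K]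
  [Algebra E K] [IsScalarTower E M K]
  {ρ : (M ≃ₐ[E] M) →* (K ≃ₐ[E] K)} {x : Λ → K} {P : Finset Λ}
  {I : Ideal (𝓞 M)} {g : M ≃ₐ[E] M} {p l : ℕ}

/-- the minors of the family -/
theorem v_min (hst : ∀ (g : M ≃ₐ[E] M), ∀ μ ∈ P, g • μ ∈ P)
    (hact : ∀ g a, ρ g (x a) = x (g • a)) (h : WN ρ x I g p l) (s : K) (hs : s ≠ 0)
    (i k : JJ E M P) :
    hm ((wt I i : ℤ) + wt I k + l)
      ((val ρ x i * ρ g (val ρ x k) - val ρ x k * ρ g (val ρ x i)) / s ^ 2) ∈
      WB x (ρ g).toRingEquiv (ta Λ g) p l I P s := by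
  have h1 := Subalgebra.sub_mem _
    (Subalgebra.mul_mem _ (v_mem hst hact h s i) (v_lin hst hact h s k))
    (Subalgebra.mul_mem _ (v_lin hst hact h s i) (v_mem hst hact h s k))
  rw [hm_mul, hm_mul] at h1
  have h2 : ((wt I i : ℕ) : ℤ) + l + (wt I k : ℕ) = (wt I i : ℕ) + ((wt I k : ℕ) + l) := by ring
  rw [h2, ← hm_sub] at h1
  convert h1 using 2
  · ring
  · field_simp
    ring

theorem nf_of (hst : ∀ (g : M ≃ₐ[E] M), ∀ μ ∈ P, g • μ ∈ P)
    (hact : ∀ g a, ρ g (x a) = x (g • a)) (h : WN ρ x I g p l) {m : ℕ} {z : Fin (m + 1) → K}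
    {w : Ideal (𝓞 M) → Fin (m + 1) → ℕ} (hE : EN ρ x P z w) (hz : ∀ j, z j ≠ 0)
    (j : Fin (m + 1))
    (hC : ∀ (Q : Ideal (WB x (ρ g).toRingEquiv (ta Λ g) p l I P (z j))) [Q.IsPrime],
      Zr2 x (ρ g).toRingEquiv (TT E M g).toRingEquiv (ta Λ g) p l I P (z j) Q →
      ∀ (k : ℕ) (y : K), 0 < k → hm k y ∈ WB x (ρ g).toRingEquiv (ta Λ g) p l I P (z j) →
        MQ _ Q (hm k y)) :
    NF (BR I 1 (w I) z j) I 1 l (w I) z (ρ g) j := by
  rw [BR_WB hst hact h hE j]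
  intro y hy
  obtain ⟨n, hn, a, hya⟩ := hy
  rw [Ideal.radical_eq_sInf, Submodule.mem_sInf]
  rintro J ⟨hJ1, hJ2⟩
  have hJp : Ideal.IsPrime (α := WB x (ρ g).toRingEquiv (ta Λ g) p l I P (z j)) J := hJ2
  have hmin : ∀ (i k : JJ E M P) (d : ℤ) (y : K), d = (wt I i : ℤ) + wt I k + l →
      y = val ρ x i * ρ g (val ρ x k) - val ρ x k * ρ g (val ρ x i) →
      MQ (WB x (ρ g).toRingEquiv (ta Λ g) p l I P (z j)) J (hm d (y / z j ^ 2)) := by
    intro i k d y hd hy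
    have h1 := v_min hst hact h (z j) (hz j) i k
    rw [← hd, ← hy] at h1
    refine ⟨h1, ?_⟩
    have h0 : hm d (y / z j ^ 2) = 0 → (⟨_, h1⟩ : (WB x (ρ g).toRingEquiv (ta Λ g) p l I P
        (z j)).toSubring) ∈ J := by
      intro h2
      have h3 : (⟨_, h1⟩ : (WB x (ρ g).toRingEquiv (ta Λ g) p l I P (z j)).toSubring) = 0 :=
        Subtype.ext h2
      rw [h3]
      exact J.zero_mem
    by_cases hi : val ρ x i = 0
    · exact h0 (by rw [hy, hi, map_zero, mul_zero, zero_mul, sub_zero, zero_div, hm_zero])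
    by_cases hk : val ρ x k = 0
    · exact h0 (by rw [hy, hk, map_zero, mul_zero, zero_mul, sub_zero, zero_div, hm_zero])
    obtain ⟨i', hi1, hi2⟩ := hE.bwd i hi
    obtain ⟨k', hk1, hk2⟩ := hE.bwd k hk
    refine hJ1 (Ideal.subset_span (Or.inr (Or.inr ⟨i', k', ?_⟩)))
    rw [hi1, hk1, hi2, hk2, mo_eq, ← hy, ← hd]
  have hZ : Zr2 x (ρ g).toRingEquiv (TT E M g).toRingEquiv (ta Λ g) p l I P (z j) J := by
    refine ⟨?_, ?_, ?_, ?_⟩
    · intro e he
      refine ⟨Subalgebra.algebraMap_mem _ e, hJ1 (Ideal.subset_span (Or.inl ⟨e, he, ?_⟩))⟩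
      rw [mo_eq]
    · intro e he
      have h1 := WB_pow (x := x) (σ := (ρ g).toRingEquiv) (τ := ta Λ g) (p := p) (l := l) (P := P)
        (s := z j) (h.wd.dv e)
      have h2 : (((l + 1 : ℕ)) : ℤ) = 1 + l := by push_cast; ring
      rw [h2] at h1
      refine ⟨h1, hJ1 (Ideal.subset_span (Or.inr (Or.inl ⟨e, he, ?_⟩)))⟩
      rw [mo_eq]
      have h3 := h.wd.com e
      change ρ g (algebraMap (𝓞 M) K e) = algebraMap (𝓞 M) K (TT E M g e) at h3
      rw [h3, ← map_sub]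
      rfl
    · intro μ hμ ν hν
      exact hmin (Sum.inl ⟨ν, hν⟩) (Sum.inl ⟨μ, hμ⟩) _ _ (by
        change (l : ℤ) = ((0 : ℕ) : ℤ) + ((0 : ℕ) : ℤ) + l
        simp) rfl
    · intro e a μ ν κ h1 h2 h3 h4 h5 h6 h7
      obtain ⟨i, hi1, hi2⟩ := cls' h h1 h2 h3 h4 h5 h7
      refine hmin (Sum.inl ⟨κ, h6⟩) i _ _ ?_ ?_
      · rw [hi1]
        change _ = ((0 : ℕ) : ℤ) + _ + l
        simp
      · rw [hi2]
        rfl
  have hmem : hm n a ∈ WB x (ρ g).toRingEquiv (ta Λ g) p l I P (z j) := by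
    rw [← mo_eq, ← hya]
    exact y.2
  obtain ⟨h1, h2⟩ := hC J hZ n a hn hmem
  have h3 : y = ⟨hm n a, h1⟩ := Subtype.ext (by rw [hya, mo_eq])
  rw [h3]
  exact h2

end wild

theorem adj_eq {Λ O K : Type} [CommRing O] [Field K] [Algebra O K] {x : Λ → K} {P : Finset Λ}
    {m : ℕ} {z : Fin (m + 1) → K} (h1 : ∀ j, z j ∈ Submodule.span O (x '' (P : Set Λ)))
    (h2 : ∀ μ ∈ P, ∃ j, z j = x μ) (j : Fin (m + 1)) :
    Algebra.adjoin O (Set.range fun i => z i / z j) =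
      Algebra.adjoin O ((fun μ => x μ / z j) '' (P : Set Λ)) := by
  refine le_antisymm (Algebra.adjoin_le ?_) (Algebra.adjoin_le ?_)
  · rintro _ ⟨i, rfl⟩
    change z i / z j ∈ Algebra.adjoin O ((fun μ => x μ / z j) '' (P : Set Λ))
    have h3 := h1 i
    generalize z i = y at h3
    induction h3 using Submodule.span_induction with
    | mem y hy =>
      obtain ⟨μ, hμ, rfl⟩ := hy
      exact Algebra.subset_adjoin ⟨μ, hμ, rfl⟩
    | zero => rw [zero_div]; exact Subalgebra.zero_mem _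
    | add y z _ _ hy hz => rw [add_div]; exact Subalgebra.add_mem _ hy hz
    | smul a y _ hy =>
      rw [Algebra.smul_def, mul_div_assoc, ← Algebra.smul_def]
      exact Subalgebra.smul_mem _ hy a
  · rintro _ ⟨μ, hμ, rfl⟩
    obtain ⟨i, hi⟩ := h2 μ hμ
    exact Algebra.subset_adjoin ⟨i, by simp only [hi]⟩

theorem gen_top {Λ M K : Type} [AddCommGroup Λ] [Field M] [Field K] [Algebra M K] {x : Λ → K}
    (hx0 : x 0 = 1) (hxa : ∀ a b, x (a + b) = x a * x b)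
    (hgen : IntermediateField.adjoin M (Set.range x) = ⊤) {P : Finset Λ}
    {m : ℕ} {z : Fin (m + 1) → K} (hz : ∀ j, z j ≠ 0) (h2 : ∀ μ ∈ P, ∃ j, z j = x μ) {v : Λ}
    (hv : v ∈ P) {n : ℕ} (b : Basis (Fin n) ℤ Λ) (hb : ∀ i, v + b i ∈ P) :
    IntermediateField.adjoin M (Set.range fun j => z j / z 0) = ⊤ := by
  set L := IntermediateField.adjoin M (Set.range fun j => z j / z 0) with hL
  have hne : ∀ a, x a ≠ 0 := by
    intro a h1
    have h2 := hxa a (-a)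
    rw [add_neg_cancel, h1, zero_mul, hx0] at h2
    exact one_ne_zero h2
  have h3 : ∀ μ ∈ P, ∀ ν ∈ P, x μ / x ν ∈ L := by
    intro μ hμ ν hν
    obtain ⟨i, hi⟩ := h2 μ hμ
    obtain ⟨k, hk⟩ := h2 ν hν
    have h4 : x μ / x ν = (z i / z 0) / (z k / z 0) := by
      have := hz 0
      have := hz k
      rw [← hi, ← hk]
      field_simp
    rw [h4]
    exact L.div_mem (IntermediateField.subset_adjoin _ _ ⟨i, rfl⟩)
      (IntermediateField.subset_adjoin _ _ ⟨k, rfl⟩)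
  let S : AddSubgroup Λ :=
    { carrier := {a | x a ∈ L}
      zero_mem' := by
        change x 0 ∈ L
        rw [hx0]
        exact L.one_mem
      add_mem' := by
        intro a c ha hc
        change x (a + c) ∈ L
        rw [hxa]
        exact L.mul_mem ha hc
      neg_mem' := by
        intro a ha
        change x (-a) ∈ L
        have h4 : x (-a) = (x a)⁻¹ := by
          refine eq_inv_of_mul_eq_one_left ?_
          rw [← hxa, neg_add_cancel, hx0]
        rw [h4]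
        exact L.inv_mem ha }
  have h5 : (⊤ : Submodule ℤ Λ) ≤ AddSubgroup.toIntSubmodule S := by
    rw [← b.span_eq, Submodule.span_le]
    rintro _ ⟨i, rfl⟩
    change x (b i) ∈ L
    have h6 := h3 _ (hb i) _ hv
    rw [hxa, mul_div_cancel_left₀ _ (hne v)] at h6
    exact h6
  rw [eq_top_iff, ← hgen, IntermediateField.adjoin_le_iff]
  rintro _ ⟨a, rfl⟩
  exact h5 (show a ∈ ⊤ from Submodule.mem_top)

end Pool.Agent.K3h66.TO.F

namespace Pool.Agent.K3h66.TO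

open Pool.Agent.Y223.G Pool.Agent.W418.LU2 Pool.Agent.R383.TM Module
open Pool.Agent.K3h75.TO F

theorem t_FML : Pool.Agent.K3h75.TO.S_FML := by
  intro hPK hVREG hVNZ hCHT hCH0 hNUM E M _ _ _ _ _ _ hin Λ _ _ P₀ hSm hst₀ K _ _ _ _ ρ hρ x
    hx0 hxa hxi hgen hact
  have hfd : FiniteDimensional E M := Module.Finite.of_restrictScalars_finite ℚ E M
  have hfinG : Finite (M ≃ₐ[E] M) := inferInstance
  obtain ⟨P, hPne, hst, hvx⟩ := hPK Λ (M ≃ₐ[E] M) P₀ hSm hst₀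
  have hxiO : LinearIndependent (𝓞 M) x := by
    refine LinearIndependent.restrict_scalars (K := M) ?_ hxi
    intro a b hab
    have h1 : algebraMap (𝓞 M) M a = algebraMap (𝓞 M) M b := by
      have h2 : (a • (1 : M)) = b • (1 : M) := hab
      rwa [Algebra.smul_def, Algebra.smul_def, mul_one, mul_one] at h2
    exact RingOfIntegers.coe_injective h1
  have hch : Chr Λ (𝓞 M) K x := ⟨hx0, hxa, hxiO⟩
  obtain ⟨m, z, w, hE⟩ := exists_EN ρ x P hPne hch.ne
  have hz : ∀ j, z j ≠ 0 := by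
    intro j
    obtain ⟨i, h1, h2, -⟩ := hE.fwd j
    rw [h1]
    exact h2
  have hzs : ∀ j, z j ∈ Submodule.span (𝓞 M) (x '' (P : Set Λ)) := by
    intro j
    obtain ⟨i, h1, -, -⟩ := hE.fwd j
    rw [h1]
    exact cl_span (val_cl hst hact i)
  have hxz : ∀ μ ∈ P, ∃ j, z j = x μ := by
    intro μ hμ
    obtain ⟨j, hj, -⟩ := hE.bwd (Sum.inl ⟨μ, hμ⟩) (hch.ne μ)
    exact ⟨j, hj⟩
  have hcj : ∀ (g : M ≃ₐ[E] M) j, ∃ (i : JJ E M P) (k : Fin (m + 1)), z k = ρ g (z j) ∧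
      (∀ I, w I j = wt I i) ∧ ∀ I, w I k = wt I (cj hst g i) := by
    intro g j
    obtain ⟨i, h1, h2, h3⟩ := hE.fwd j
    have h4 : val ρ x (cj hst g i) ≠ 0 := by
      rw [val_cj hst hact]
      intro h5
      exact h2 ((map_eq_zero_iff _ (ρ g).injective).1 h5)
    obtain ⟨k, hk1, hk2⟩ := hE.bwd _ h4
    exact ⟨i, k, by rw [hk1, val_cj hst hact, h1], h3, hk2⟩
  have hWN : ∀ (I : Ideal (𝓞 M)) (g : M ≃ₐ[E] M), I.IsMaximal → IsW E I g →
      ∃ p l : ℕ, WN ρ x I g p l := by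
    intro I g hI hg
    obtain ⟨p, l, hp, hl, hI0, hgp, hpl, hdv, hun, hal⟩ := hNUM E M I hI (hin I hI) g hg
    refine ⟨p, l, ?_, hg, hgp, lw_eq hg hp hgp hdv hun hal, hal⟩
    exact
      { toChr := hch
        pp := hp
        mx := hI
        ne := hI0
        com := fun o => hρ g (o : M)
        act := fun a => hact g a
        ord := by
          intro y
          rw [rho_iter, hgp, map_one]
          rfl
        l1 := hl
        dv := hdv
        un := hun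
        pl := hpl }
  have hC : ∀ (I : Ideal (𝓞 M)) (g : M ≃ₐ[E] M) (p l : ℕ), WN ρ x I g p l → ∀ j,
      IsRegularRing (WB x (ρ g).toRingEquiv (ta Λ g) p l I P (z j)) ∧
      ∀ (Q : Ideal (WB x (ρ g).toRingEquiv (ta Λ g) p l I P (z j))) [Q.IsPrime],
      Zr2 x (ρ g).toRingEquiv (TT E M g).toRingEquiv (ta Λ g) p l I P (z j) Q →
      ∀ (k : ℕ) (y : K), 0 < k → hm k y ∈ WB x (ρ g).toRingEquiv (ta Λ g) p l I P (z j) →
        MQ _ Q (hm k y) := by
    intro I g p l h j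
    have hst' : ∀ a ∈ P, ta Λ g a ∈ P := fun a ha => hst g a ha
    refine hCHT Λ (𝓞 M) K x (ρ g).toRingEquiv (TT E M g).toRingEquiv (ta Λ g) p l I h.wd P hst'
      ?_ (z j) (hz j) (hzs j)
    intro μ hμ
    obtain ⟨v, hv, hms, n, b, hb, hnn, hLg⟩ := hvx μ hμ
    have hVx : Vx b (ta Λ g) p P v := by
      refine ⟨hv, hst', hb, hnn, ?_⟩
      refine hLg g p h.wd.pp ?_
      intro a
      have h1 := ta_iter g p a
      rw [h.gp, one_smul] at h1
      exact h1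
    exact ⟨v, hv, hms,
      hVREG Λ (𝓞 M) K x (ρ g).toRingEquiv (TT E M g).toRingEquiv (ta Λ g) p l I h.wd n b P v hVx,
      hVNZ Λ (𝓞 M) K x (ρ g).toRingEquiv (TT E M g).toRingEquiv (ta Λ g) p l I h.wd n b P v hVx⟩
  refine ⟨m, z, hz, ?_, ?_, ?_, fun _ => 1, w, ?_⟩
  · obtain ⟨μ, hμ⟩ := hPne
    obtain ⟨v, hv, -, n, b, hb, -, -⟩ := hvx μ hμ
    exact gen_top hx0 hxa hgen hz hxz hv b hb
  · intro g j
    obtain ⟨-, k, hk, -, -⟩ := hcj g j
    rw [← hk]
    exact Submodule.subset_span ⟨k, rfl⟩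
  · intro j
    rw [adj_eq hzs hxz]
    refine hCH0 Λ (𝓞 M) K x hch P ?_ (z j) (hz j) (hzs j)
    intro μ hμ
    obtain ⟨v, hv, hms, n, b, hb, hnn, -⟩ := hvx μ hμ
    exact ⟨v, hv, hms, n, b, hb, hnn⟩
  · refine ⟨fun _ => one_pos, ?_, ?_, ?_⟩
    · intro I g hI hg j
      obtain ⟨p, l, h⟩ := hWN I g hI hg
      rw [BR_WB hst hact h hE j]
      exact (hC I g p l h j).1
    · intro I g hI hg h J hh
      refine ⟨rfl, ?_⟩
      intro i j
      obtain ⟨i', k, hk, h1, h2⟩ := hcj h i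
      have h3 : w I i = w J k := by
        rw [h1, h2, wt_cj hst hh]
      rw [h3, ← hk]
      exact Algebra.subset_adjoin (Or.inr ⟨k, rfl⟩)
    · intro I g hI hg
      obtain ⟨p, l, h⟩ := hWN I g hI hg
      refine ⟨l, l, h.wd.l1, by rw [one_mul], ?_, ?_, ?_⟩
      · intro o
        exact ex_iff.2 (h.wd.dv o)
      · intro i j
        rw [BR_WB hst hact h hE j, mo_eq]
        obtain ⟨i', h1, -, h2⟩ := hE.fwd i
        rw [h1, h2]
        exact v_lin hst hact h (z j) i'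
      · intro j
        exact nf_of hst hact h hE hz j (hC I g p l h j).2

end Pool.Agent.K3h66.TO
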