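import Pool.Agent.K3h75.TO.Stm2
import Pool.Agent.K3h75.TO.Frm
import Pool.Agent.K3h22.Cov

/-!
# Brick CHT: from the graded rings at the vertices to all charts
-/

set_option autoImplicit false
set_option linter.unusedSectionVars false

namespace Pool.Agent.K3h66.TO.T

open Pool.Agent.Y223.G Pool.Agent.W418.LU2
open Pool.Agent.K3h75.TO MvPolynomial Module

section

variable {Λ O K : Type} [AddCommGroup Λ] [CommRing O] [IsDomain O] [Field K] [Algebra O K]
  {x : Λ → K} {σ : K ≃+* K} {τ : Λ →+ Λ} {p l : ℕ} {𝔓 : Ideal O} {P : Finset Λ}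

/-- linear forms divided by `s` -/
theorem mem_sp {s s' : K} (hs' : s' ∈ Submodule.span O (x '' (P : Set Λ))) :
    hm 0 (s' / s) ∈ WB x σ τ p l 𝔓 P s := by
  induction hs' using Submodule.span_induction with
  | mem y hy =>
    obtain ⟨μ, hμ, rfl⟩ := hy
    exact WB_x hμ
  | zero => rw [zero_div, hm_zero]; exact Subalgebra.zero_mem _
  | add y z _ _ hy hz => rw [add_div, hm_add]; exact Subalgebra.add_mem _ hy hz
  | smul a y _ hy =>
    rw [Algebra.smul_def, mul_div_assoc, ← Algebra.smul_def, ← smul_hm]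
    exact Subalgebra.smul_mem _ hy a

/-- the graded algebra is of finite type -/
theorem noeth [IsNoetherianRing O] (s : K) : IsNoetherianRing (WB x σ τ p l 𝔓 P s) := by
  classical
  obtain ⟨G, hG⟩ := (inferInstance : IsNoetherian O O).noetherian 𝔓
  have hfg : (WB x σ τ p l 𝔓 P s).FG := by
    rw [Subalgebra.fg_def]
    refine ⟨({hm (-1) 1} ∪ (fun e => hm 1 (algebraMap O K e)) '' (G : Set O) ∪
      (fun μ => hm 0 (x μ / s)) '' (P : Set Λ)) ∪
      (fun j : ((ℕ × ℕ) × (Λ × Λ)) => hm (((j.1.2 + 1) * l : ℕ) : ℤ)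
        ((df (σ^[j.1.1]))^[j.1.2] (x j.2.1 - x j.2.2) / s)) ''
        {j | (j ∈ (Finset.range p ×ˢ Finset.range p) ×ˢ (P ×ˢ P)) ∧
          1 ≤ j.1.1 ∧ Nm τ p (j.2.1 - j.2.2) = 0}, ?_, ?_⟩
    · refine Set.Finite.union (Set.Finite.union (Set.Finite.union (Set.finite_singleton _)
        (G.finite_toSet.image _)) (P.finite_toSet.image _)) (Set.Finite.image _ ?_)
      exact (Finset.finite_toSet ((Finset.range p ×ˢ Finset.range p) ×ˢ (P ×ˢ P))).subset
        fun j hj => hj.1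
    · refine le_antisymm (Algebra.adjoin_le ?_) (Algebra.adjoin_le ?_)
      · rintro y (((rfl | ⟨e, he, rfl⟩) | ⟨μ, hμ, rfl⟩) | ⟨⟨⟨e, a⟩, ⟨μ, ν⟩⟩, ⟨h1, h2, h3⟩, rfl⟩)
        · exact WB_T
        · refine WB_e ?_
          rw [← hG]
          exact Ideal.subset_span he
        · exact WB_x hμ
        · simp only [Finset.mem_product, Finset.mem_range] at h1 h2 h3
          exact WB_D h2 h1.1.1 h1.1.2 h1.2.1 h1.2.2 h3
      · rintro y (((rfl | ⟨e, he, rfl⟩) | ⟨μ, hμ, rfl⟩) | ⟨e, a, μ, ν, h1, h2, h3, h4, h5, h6, rfl⟩)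
        · exact Algebra.subset_adjoin (Or.inl (Or.inl (Or.inl rfl)))
        · rw [← hG] at he
          induction he using Submodule.span_induction with
          | mem e he => exact Algebra.subset_adjoin (Or.inl (Or.inl (Or.inr ⟨e, he, rfl⟩)))
          | zero =>
            rw [map_zero, hm_zero]
            exact Subalgebra.zero_mem _
          | add y z _ _ hy hz => rw [map_add, hm_add]; exact Subalgebra.add_mem _ hy hz
          | smul a y _ hy =>
            rw [smul_eq_mul, map_mul, ← Algebra.smul_def, ← smul_hm]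
            exact Subalgebra.smul_mem _ hy a
        · exact Algebra.subset_adjoin (Or.inl (Or.inr ⟨μ, hμ, rfl⟩))
        · refine Algebra.subset_adjoin (Or.inr ⟨((e, a), (μ, ν)), ⟨?_, h1, h6⟩, rfl⟩)
          simp only [Finset.mem_product, Finset.mem_range]
          exact ⟨⟨h2, h3⟩, h4, h5⟩
  exact isNoetherianRing_of_fg hfg

/-- change of the chart -/
theorem chg {s s' : K} (hs : s ≠ 0) (hg : hm 0 (s / s') ∈ (WB x σ τ p l 𝔓 P s').toSubring) :
    ∀ b ∈ WB x σ τ p l 𝔓 P s, b ∈ Pool.Agent.K3h22.COV.Cs _ (hm 0 (s / s')) hg := by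
  intro b hb
  unfold WB at hb
  have h0 : ∀ (d : ℤ) (y : K), hm d (y / s) * hm 0 (s / s') ^ 1 = hm d (y / s') := by
    intro d y
    rw [pow_one, hm_mul, add_zero]
    congr 1
    field_simp
  induction hb using Algebra.adjoin_induction with
  | mem y hy =>
    obtain (((rfl | ⟨e, he, rfl⟩) | ⟨μ, hμ, rfl⟩) | ⟨e, a, μ, ν, h1, h2, h3, h4, h5, h6, rfl⟩) := hy
    · exact ⟨0, by rw [pow_zero, mul_one]; exact WB_T⟩
    · exact ⟨0, by rw [pow_zero, mul_one]; exact WB_e he⟩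
    · exact ⟨1, by rw [h0]; exact WB_x hμ⟩
    · exact ⟨1, by rw [h0]; exact WB_D h1 h2 h3 h4 h5 h6⟩
  | algebraMap r =>
    exact ⟨0, by rw [pow_zero, mul_one]; exact (WB x σ τ p l 𝔓 P s').algebraMap_mem r⟩
  | add y z hy hz ihy ihz => exact Subring.add_mem _ ihy ihz
  | mul y z hy hz ihy ihz => exact Subring.mul_mem _ ihy ihz

/-- a vertex for a prime ideal -/
theorem vert (h : Chr Λ O K x)
    {s : K} (hs : s ≠ 0) (hsP : s ∈ Submodule.span O (x '' (P : Set Λ)))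
    (Q : Ideal (WB x σ τ p l 𝔓 P s)) [hQ : Q.IsPrime] :
    ∃ μ ∈ P, ∀ v ∈ P, (∃ s : Multiset Λ, (∀ κ ∈ s, κ ∈ P) ∧ (s.card + 1) • μ = v + s.sum) →
      ∀ hv : hm 0 (x v / s) ∈ WB x σ τ p l 𝔓 P s, (⟨_, hv⟩ : WB x σ τ p l 𝔓 P s) ∉ Q := by
  have h1 : ∃ μ, ∃ hμ : μ ∈ P, (⟨hm 0 (x μ / s), WB_x hμ⟩ : WB x σ τ p l 𝔓 P s) ∉ Q := by
    by_contra hcon
    push Not at hcon
    have h2 : ∀ y ∈ Submodule.span O (x '' (P : Set Λ)), MQ _ Q (hm 0 (y / s)) := by
      intro y hy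
      induction hy using Submodule.span_induction with
      | mem y hy =>
        obtain ⟨μ, hμ, rfl⟩ := hy
        exact ⟨WB_x hμ, hcon μ hμ⟩
      | zero =>
        refine ⟨by rw [zero_div, hm_zero]; exact Subalgebra.zero_mem _, ?_⟩
        convert Q.zero_mem using 1
        apply Subtype.ext
        change hm 0 (0 / s) = 0
        rw [zero_div, hm_zero]
      | add y z _ _ hy hz =>
        obtain ⟨hy, hy'⟩ := hy
        obtain ⟨hz, hz'⟩ := hz
        refine ⟨by rw [add_div, hm_add]; exact Subalgebra.add_mem _ hy hz, ?_⟩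
        convert Q.add_mem hy' hz' using 1
        apply Subtype.ext
        change hm 0 ((y + z) / s) = hm 0 (y / s) + hm 0 (z / s)
        rw [add_div, hm_add]
      | smul a y _ hy =>
        obtain ⟨hy, hy'⟩ := hy
        have h3 : hm 0 (a • y / s) = a • hm 0 (y / s) := by
          rw [Algebra.smul_def, mul_div_assoc, ← Algebra.smul_def, smul_hm]
        refine ⟨by rw [h3]; exact Subalgebra.smul_mem _ hy a, ?_⟩
        convert Q.mul_mem_left (algebraMap O (WB x σ τ p l 𝔓 P s) a) hy' using 1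
        apply Subtype.ext
        change hm 0 (a • y / s) = algebraMap O (LP K) a * hm 0 (y / s)
        rw [h3, Algebra.smul_def]
    obtain ⟨hy, hy'⟩ := h2 s hsP
    refine hQ.ne_top ((Ideal.eq_top_iff_one Q).2 ?_)
    convert hy' using 1
    apply Subtype.ext
    change 1 = hm 0 (s / s)
    rw [div_self hs, hm_one]
  obtain ⟨μ, hμ, hμq⟩ := h1
  refine ⟨μ, hμ, ?_⟩
  rintro v hv ⟨t, ht, htv⟩ hv' hvq
  have h4 : ∀ t : Multiset Λ, (∀ κ ∈ t, κ ∈ P) → hm 0 (x t.sum / s ^ t.card) ∈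
      WB x σ τ p l 𝔓 P s := by
    intro t
    induction t using Multiset.induction_on with
    | empty =>
      intro _
      rw [Multiset.sum_zero, h.zero, Multiset.card_zero, pow_zero, div_one, hm_one]
      exact Subalgebra.one_mem _
    | cons a t ih =>
      intro ht
      have h5 := Subalgebra.mul_mem _
        (WB_x (σ := σ) (τ := τ) (p := p) (l := l) (𝔓 := 𝔓) (P := P) (x := x) (s := s)
          (ht a (Multiset.mem_cons_self a t)))
        (ih fun κ hκ => ht κ (Multiset.mem_cons_of_mem hκ))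
      rw [Multiset.sum_cons, Multiset.card_cons, h.add, pow_succ']
      rwa [hm_mul, add_zero, div_mul_div_comm] at h5
  refine hμq (hQ.mem_of_pow_mem (t.card + 1) ?_)
  convert Q.mul_mem_right (⟨_, h4 t ht⟩ : WB x σ τ p l 𝔓 P s) hvq using 1
  apply Subtype.ext
  change hm 0 (x μ / s) ^ (t.card + 1) = hm 0 (x v / s) * hm 0 (x t.sum / s ^ t.card)
  rw [hm_pow, hm_mul, mul_zero, add_zero, div_pow, div_mul_div_comm, ← h.add, ← htv, h.nsmul,
    pow_succ' s]

end

/-- moving a prime ideal to another chart -/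
def mv {O D : Type} [CommRing O] [CommRing D] [Algebra O D] (B C : Subalgebra O D) (f : D)
    (hf : f ∈ B) (hC : ∀ c ∈ C, ∃ N : ℕ, c * f ^ N ∈ B) (Q : Ideal B) : Ideal C where
  carrier := {c | ∃ N : ℕ, MQ B Q (c * f ^ N)}
  zero_mem' := ⟨0, by rw [ZeroMemClass.coe_zero, zero_mul]; exact ⟨B.zero_mem, Q.zero_mem⟩⟩
  add_mem' := by
    rintro a b ⟨N, hN, hN'⟩ ⟨M, hM, hM'⟩
    have h1 := B.mul_mem hN (B.pow_mem hf M)
    have h2 := B.mul_mem hM (B.pow_mem hf N)
    have h3 : ((a + b : C) : D) * f ^ (N + M) =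
        (a : D) * f ^ N * f ^ M + (b : D) * f ^ M * f ^ N := by
      rw [Subalgebra.coe_add]; ring
    refine ⟨N + M, by rw [h3]; exact B.add_mem h1 h2, ?_⟩
    convert Q.add_mem (Q.mul_mem_right (⟨f ^ M, B.pow_mem hf M⟩ : B) hN')
      (Q.mul_mem_right (⟨f ^ N, B.pow_mem hf N⟩ : B) hM') using 1
    exact Subtype.ext h3
  smul_mem' := by
    rintro c a ⟨N, hN, hN'⟩
    obtain ⟨M, hM⟩ := hC c c.2
    have h3 : ((c • a : C) : D) * f ^ (N + M) = (c : D) * f ^ M * ((a : D) * f ^ N) := by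
      rw [smul_eq_mul, Subalgebra.coe_mul]; ring
    refine ⟨N + M, by rw [h3]; exact B.mul_mem hM hN, ?_⟩
    convert Q.mul_mem_left (⟨c * f ^ M, hM⟩ : B) hN' using 1
    exact Subtype.ext h3

theorem mv_prime {O D : Type} [CommRing O] [CommRing D] [Algebra O D] (B C : Subalgebra O D)
    (f : D) (hf : f ∈ B) (hC : ∀ c ∈ C, ∃ N : ℕ, c * f ^ N ∈ B) (Q : Ideal B) [hQ : Q.IsPrime]
    (hfQ : (⟨f, hf⟩ : B) ∉ Q) : (mv B C f hf hC Q).IsPrime := by
  have hfN : ∀ N, (⟨f ^ N, B.pow_mem hf N⟩ : B) ∉ Q := fun N h =>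
    hfQ (hQ.mem_of_pow_mem N (by
      have h1 : (⟨f, hf⟩ : B) ^ N = ⟨f ^ N, B.pow_mem hf N⟩ := Subtype.ext (by
        rw [Subalgebra.coe_pow])
      rw [h1]
      exact h))
  refine ⟨?_, ?_⟩
  · rw [Ideal.ne_top_iff_one]
    rintro ⟨N, hN, hN'⟩
    refine hfN N ?_
    convert hN' using 1
    apply Subtype.ext
    change f ^ N = ((1 : C) : D) * f ^ N
    rw [OneMemClass.coe_one, one_mul]
  · rintro a b ⟨N, hN, hN'⟩
    obtain ⟨M, hM⟩ := hC a a.2
    obtain ⟨M', hM'⟩ := hC b b.2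
    have h1 : ((⟨_, hM⟩ : B) * (⟨_, hM'⟩ : B)) * (⟨f ^ N, B.pow_mem hf N⟩ : B) ∈ Q := by
      convert Q.mul_mem_right (⟨f ^ (M + M'), B.pow_mem hf _⟩ : B) hN' using 1
      apply Subtype.ext
      change (a : D) * f ^ M * ((b : D) * f ^ M') * f ^ N = ((a * b : C) : D) * f ^ N * f ^ (M + M')
      rw [Subalgebra.coe_mul]
      ring
    rcases (hQ.mem_or_mem h1) with h2 | h2
    · rcases (hQ.mem_or_mem h2) with h3 | h3
      · exact Or.inl ⟨M, hM, h3⟩
      · exact Or.inr ⟨M', hM', h3⟩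
    · exact absurd h2 (hfN N)

end Pool.Agent.K3h66.TO.T

namespace Pool.Agent.K3h66.TO

open Pool.Agent.Y223.G Pool.Agent.W418.LU2
open Pool.Agent.K3h75.TO MvPolynomial Module T

theorem t_CHT : Pool.Agent.K3h75.TO.S_CHT := by
  intro Λ O K _ _ _ _ _ _ x σ t τ p l 𝔓 h P hst hP s hs hsP
  have hch : Chr Λ O K x := h.toChr
  refine ⟨?_, ?_⟩
  · have key : IsRegularRing (WB x σ τ p l 𝔓 P s).toSubring := by
      refine Pool.Agent.K3h22.COV.t_COV (LP K) (WB x σ τ p l 𝔓 P s).toSubring (noeth s) ?_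
      intro q hq
      have : Ideal.IsPrime (α := WB x σ τ p l 𝔓 P s) q := hq
      obtain ⟨μ, hμ, hμ'⟩ := vert hch hs hsP (σ := σ) (τ := τ) (p := p) (l := l) (𝔓 := 𝔓) q
      obtain ⟨v, hv, hvt, hreg, -⟩ := hP μ hμ
      have hf : hm 0 (x v / s) ∈ WB x σ τ p l 𝔓 P s := WB_x hv
      have hg : hm 0 (s / x v) ∈ WB x σ τ p l 𝔓 P (x v) := mem_sp hsP
      refine ⟨(WB x σ τ p l 𝔓 P (x v)).toSubring, hm 0 (x v / s), hm 0 (s / x v), hf,
        hμ' v hv hvt hf, hg, ?_, hreg, chg hs hg, chg (hch.ne v) hf⟩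
      have hv0 := hch.ne v
      rw [hm_mul, add_zero, ← hm_one]
      congr 1
      field_simp
    exact key
  · intro Q hQ hZ k y hk hy
    obtain ⟨μ, hμ, hμ'⟩ := vert hch hs hsP (σ := σ) (τ := τ) (p := p) (l := l) (𝔓 := 𝔓) Q
    obtain ⟨v, hv, hvt, hreg, hvz⟩ := hP μ hμ
    have hf : hm 0 (x v / s) ∈ WB x σ τ p l 𝔓 P s := WB_x hv
    have hg : hm 0 (s / x v) ∈ WB x σ τ p l 𝔓 P (x v) := mem_sp hsP
    have hv0 := hch.ne v
    have hfg : hm 0 (s / x v) * hm 0 (x v / s) = 1 := by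
      rw [hm_mul, add_zero, ← hm_one]
      congr 1
      field_simp
    have hC := chg (x := x) (σ := σ) (τ := τ) (p := p) (l := l) (𝔓 := 𝔓) (P := P) hv0 hf
    have hfQ := hμ' v hv hvt hf
    set Q' := mv (WB x σ τ p l 𝔓 P s) (WB x σ τ p l 𝔓 P (x v)) (hm 0 (x v / s)) hf hC Q with hQ'
    have hp' : Q'.IsPrime := mv_prime _ _ _ hf hC Q hfQ
    have hin : ∀ (d : ℤ) (y : K), hm d (y / x v ^ 2) ∈ WB x σ τ p l 𝔓 P (x v) →
        MQ _ Q (hm d (y / s ^ 2)) → MQ _ Q' (hm d (y / x v ^ 2)) := by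
      intro d y h1 h2
      refine ⟨h1, 2, ?_⟩
      have h3 : hm d (y / x v ^ 2) * hm 0 (x v / s) ^ 2 = hm d (y / s ^ 2) := by
        rw [hm_pow, hm_mul, mul_zero, add_zero]
        congr 1
        field_simp
      change MQ _ Q (hm d (y / x v ^ 2) * hm 0 (x v / s) ^ 2)
      rw [h3]
      exact h2
    have hZ' : Zr x σ t τ p l 𝔓 P (x v) Q' := by
      refine ⟨?_, ?_, ?_, ?_⟩
      · intro e he
        refine ⟨Subalgebra.algebraMap_mem _ e, 0, ?_⟩
        change MQ _ Q (hm 0 (algebraMap O K e) * _)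
        rw [pow_zero, mul_one]
        exact hZ.z1 e he
      · intro e he
        refine ⟨?_, 0, ?_⟩
        · have h1 := WB_pow (x := x) (σ := σ) (τ := τ) (p := p) (l := l) (P := P) (s := x v)
            (h.dv e)
          convert h1 using 2
          push_cast
          ring
        · change MQ _ Q (hm (1 + l) (algebraMap O K (t e - e)) * _)
          rw [pow_zero, mul_one]
          exact hZ.z2 e he
      · intro κ hκ
        refine hin _ _ ?_ (hZ.z3 κ hκ v hv)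
        have h1 := h.frm0 hst (x v) hκ
        have h2 := h.frm0 hst (x v) hv
        rw [mem_Vd] at h1 h2
        have h3 := Subalgebra.sub_mem _ h1 (Subalgebra.mul_mem _
          (WB_x (σ := σ) (τ := τ) (p := p) (l := l) (𝔓 := 𝔓) (P := P) (x := x) (s := x v) hκ) h2)
        rw [hm_mul, zero_add, ← hm_sub] at h3
        convert h3 using 2
        field_simp
        ring
      · intro e a κ ν h1 h2 h3 h4 h5 h6
        refine hin _ _ ?_ (hZ.z4 e a κ ν v h1 h2 h3 h4 h5 hv h6)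
        have h7 := h.frm1 hst (x v) h1 h2 h3 h4 h5 h6
        have h8 := h.frm0 hst (x v) hv
        rw [mem_Vd] at h7 h8
        have h9 := Subalgebra.sub_mem _ h7 (Subalgebra.mul_mem _
          (WB_D (σ := σ) (τ := τ) (p := p) (l := l) (𝔓 := 𝔓) (P := P) (x := x) (s := x v)
            h1 h2 h3 h4 h5 h6) h8)
        rw [hm_mul, ← hm_sub] at h9
        convert h9 using 2
        field_simp
        ring
    obtain ⟨N, hN⟩ := chg (x := x) (σ := σ) (τ := τ) (p := p) (l := l) (𝔓 := 𝔓) (P := P) hs hg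
      _ hy
    have h1 : hm k y * hm 0 (s / x v) ^ N = hm k (y * (s / x v) ^ N) := by
      rw [hm_pow, hm_mul, mul_zero, add_zero]
    rw [h1] at hN
    obtain ⟨h2, M, h3, h4⟩ := hvz Q' hZ' k _ hk hN
    refine ⟨hy, ?_⟩
    have h5 : (⟨_, hy⟩ : WB x σ τ p l 𝔓 P s) * (⟨_, hf⟩ : WB x σ τ p l 𝔓 P s) ^ M ∈ Q := by
      convert Q.mul_mem_right ((⟨_, hf⟩ : WB x σ τ p l 𝔓 P s) ^ N) h4 using 1
      apply Subtype.ext
      change hm k y * hm 0 (x v / s) ^ M =
        hm k (y * (s / x v) ^ N) * hm 0 (x v / s) ^ M * hm 0 (x v / s) ^ N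
      rw [← h1]
      have h6 : hm 0 (s / x v) ^ N * hm 0 (x v / s) ^ N = 1 := by
        rw [← mul_pow, hfg, one_pow]
      calc _ = hm k y * hm 0 (x v / s) ^ M * (hm 0 (s / x v) ^ N * hm 0 (x v / s) ^ N) := by
            rw [h6, mul_one]
        _ = _ := by ring
    rcases hQ.mem_or_mem h5 with h6 | h6
    · exact h6
    · exact absurd (hQ.mem_of_pow_mem M h6) hfQ

end Pool.Agent.K3h66.TO
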