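import Pool.Agent.K3h75.TO.Stm2
import Pool.Agent.K3h75.TO.Frm
import Pool.Agent.K3h22.Cov

/-!
# Brick CH0: the charts of a toric scheme over a Dedekind domain are regular
-/

set_option autoImplicit false

namespace Pool.Agent.K3h66.TO

open Pool.Agent.K3h75.TO MvPolynomial Module

section

variable {Λ O K : Type} [AddCommGroup Λ] [CommRing O] [IsDomain O] [Field K] [Algebra O K]
  {x : Λ → K}

/-- the exponent of a monomial -/
noncomputable def ex {n : ℕ} (b : Basis (Fin n) ℤ Λ) (m : Fin n →₀ ℕ) : Λ := ∑ i, m i • b i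

theorem ex_inj {n : ℕ} (b : Basis (Fin n) ℤ Λ) : Function.Injective (ex b) := by
  intro m m' h
  have h1 := b.linearIndependent
  rw [Fintype.linearIndependent_iff] at h1
  have h2 := h1 (fun i => (m i : ℤ) - (m' i : ℤ)) (by
    have : ∑ i, m i • b i = ∑ i, m' i • b i := h
    simp only [sub_smul, Finset.sum_sub_distrib, natCast_zsmul]
    rw [this, sub_self])
  ext i
  have := h2 i
  omega

omit [IsDomain O] in
theorem x_sum (h : Chr Λ O K x) {ι : Type} (s : Finset ι) (f : ι → Λ) :
    x (∑ i ∈ s, f i) = ∏ i ∈ s, x (f i) := by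
  classical
  induction s using Finset.induction_on with
  | empty => simp [h.zero]
  | insert a s ha ih => rw [Finset.sum_insert ha, Finset.prod_insert ha, h.add, ih]

theorem x_ex (h : Chr Λ O K x) {n : ℕ} (b : Basis (Fin n) ℤ Λ) (m : Fin n →₀ ℕ) :
    x (ex b m) = ∏ i, x (b i) ^ m i := by
  unfold ex
  rw [x_sum h]
  exact Finset.prod_congr rfl fun i _ => h.nsmul _ _

theorem ev_inj (h : Chr Λ O K x) {n : ℕ} (b : Basis (Fin n) ℤ Λ) :
    Function.Injective (ev O b x) := by
  rw [injective_iff_map_eq_zero]
  intro q hq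
  have h1 := h.ind.comp (ex b) (ex_inj b)
  rw [linearIndependent_iff'] at h1
  have h2 := h1 q.support (fun m => coeff m q) (by
    unfold ev at hq
    rw [aeval_def, eval₂_eq'] at hq
    rw [← hq]
    refine Finset.sum_congr rfl fun m _ => ?_
    rw [Algebra.smul_def, Function.comp_apply, x_ex h])
  ext m
  rw [coeff_zero]
  by_cases hm : m ∈ q.support
  · exact h2 m hm
  · exact notMem_support_iff.1 hm

theorem ex_ps {n : ℕ} (b : Basis (Fin n) ℤ Λ) (a : Λ) (ha : ∀ i, 0 ≤ b.repr a i) :
    ex b (ps b a) = a := by
  unfold ex ps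
  conv_rhs => rw [← b.sum_repr a]
  refine Finset.sum_congr rfl fun i _ => ?_
  rw [Finsupp.mapRange_apply, ← natCast_zsmul, Int.toNat_of_nonneg (ha i)]

theorem ev_mn (h : Chr Λ O K x) {n : ℕ} (b : Basis (Fin n) ℤ Λ) (a : Λ)
    (ha : ∀ i, 0 ≤ b.repr a i) : ev O b x (mn O b a) = x a := by
  unfold ev mn
  rw [aeval_monomial, map_one, one_mul, Finsupp.prod_fintype _ _ (fun i => pow_zero _),
    ← x_ex h, ex_ps b a ha]

end

theorem t_CH0 : Pool.Agent.K3h75.TO.S_CH0 := by
  intro Λ O K _ _ _ _ _ _ x h P hP s hs hsP
  set A := Algebra.adjoin O ((fun μ => x μ / s) '' (P : Set Λ)) with hA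
  have hfg : A.FG := by
    classical
    refine ⟨P.image (fun μ => x μ / s), ?_⟩
    rw [Finset.coe_image]
  have hN : IsNoetherianRing A := isNoetherianRing_of_fg hfg
  have key : IsRegularRing A.toSubring := by
    refine Pool.Agent.K3h22.COV.t_COV K A.toSubring hN ?_
    intro q hq
    have hgen : ∀ μ ∈ P, x μ / s ∈ A := fun μ hμ => Algebra.subset_adjoin ⟨μ, hμ, rfl⟩
    -- a coordinate outside the prime ideal
    have h1 : ∃ μ, ∃ hμ : μ ∈ P, (⟨x μ / s, hgen μ hμ⟩ : A.toSubring) ∉ q := by
      by_contra hcon
      push Not at hcon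
      have h2 : ∀ y ∈ Submodule.span O (x '' (P : Set Λ)), ∃ hy : y / s ∈ A.toSubring,
          (⟨y / s, hy⟩ : A.toSubring) ∈ q := by
        intro y hy
        induction hy using Submodule.span_induction with
        | mem y hy =>
          obtain ⟨μ, hμ, rfl⟩ := hy
          exact ⟨hgen μ hμ, hcon μ hμ⟩
        | zero =>
          refine ⟨by rw [zero_div]; exact A.zero_mem, ?_⟩
          convert q.zero_mem using 1
          exact Subtype.ext (zero_div s)
        | add y z _ _ hy hz =>
          obtain ⟨hy, hy'⟩ := hy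
          obtain ⟨hz, hz'⟩ := hz
          refine ⟨by rw [add_div]; exact A.add_mem hy hz, ?_⟩
          convert q.add_mem hy' hz' using 1
          exact Subtype.ext (add_div y z s)
        | smul a y _ hy =>
          obtain ⟨hy, hy'⟩ := hy
          have h3 : a • y / s = a • (y / s) := by
            rw [Algebra.smul_def, Algebra.smul_def, mul_div_assoc]
          refine ⟨by rw [h3]; exact A.smul_mem hy a, ?_⟩
          convert q.mul_mem_left (⟨algebraMap O K a, A.algebraMap_mem a⟩ : A.toSubring) hy' using 1
          exact Subtype.ext (h3.trans (Algebra.smul_def a (y / s)))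
      obtain ⟨hy, hy'⟩ := h2 s hsP
      refine hq.ne_top ((Ideal.eq_top_iff_one q).2 ?_)
      convert hy' using 1
      exact Subtype.ext (div_self hs).symm
    obtain ⟨μ, hμ, hμq⟩ := h1
    obtain ⟨v, hv, ⟨t, ht, htv⟩, n, b, hb, hb0⟩ := hP μ hμ
    -- the vertex
    have h4 : ∀ t : Multiset Λ, (∀ κ ∈ t, κ ∈ P) → x t.sum / s ^ t.card ∈ A := by
      intro t
      induction t using Multiset.induction_on with
      | empty =>
        intro _
        simp [h.zero, A.one_mem]
      | cons a t ih =>
        intro ht
        have h5 := A.mul_mem (hgen a (ht a (Multiset.mem_cons_self a t)))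
          (ih fun κ hκ => ht κ (Multiset.mem_cons_of_mem hκ))
        rw [Multiset.sum_cons, Multiset.card_cons, h.add, pow_succ']
        rwa [div_mul_div_comm] at h5
    have hxv : x v / s ∈ A := hgen v hv
    have hvq : (⟨x v / s, hxv⟩ : A.toSubring) ∉ q := by
      intro hvq
      refine hμq (hq.mem_of_pow_mem (t.card + 1) ?_)
      convert q.mul_mem_right (⟨_, h4 t ht⟩ : A.toSubring) hvq using 1
      apply Subtype.ext
      change (x μ / s) ^ (t.card + 1) = x v / s * (x t.sum / s ^ t.card)
      rw [div_pow, div_mul_div_comm, ← h.add, ← htv, h.nsmul, pow_succ' s]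
    have hv0 : x v ≠ 0 := h.ne v
    -- the chart of the vertex
    have hg : s / x v ∈ (ev O b x).range.toSubring := by
      have h6 : ∀ y ∈ Submodule.span O (x '' (P : Set Λ)), y / x v ∈ (ev O b x).range := by
        intro y hy
        induction hy using Submodule.span_induction with
        | mem y hy =>
          obtain ⟨κ, hκ, rfl⟩ := hy
          rw [← h.sub]
          exact ⟨mn O b (κ - v), ev_mn h b _ (hb0 κ hκ)⟩
        | zero => rw [zero_div]; exact Subalgebra.zero_mem _
        | add y z _ _ hy hz => rw [add_div]; exact Subalgebra.add_mem _ hy hz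
        | smul a y _ hy =>
          rw [Algebra.smul_def, mul_div_assoc, ← Algebra.smul_def]
          exact Subalgebra.smul_mem _ hy a
      exact h6 s hsP
    refine ⟨(ev O b x).range.toSubring, x v / s, s / x v, hxv, hvq, hg, ?_, ?_, ?_, ?_⟩
    · field_simp
    · have e : MvPolynomial (Fin n) O ≃+* (ev O b x).range :=
        (AlgEquiv.ofInjective (ev O b x) (ev_inj h b)).toRingEquiv
      exact IsRegularRing.of_ringEquiv e
    · intro y hy
      change y ∈ Pool.Agent.K3h22.COV.Cs (ev O b x).range.toSubring (s / x v) hg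
      have hy' : y ∈ A := hy
      clear hy
      rw [hA] at hy'
      induction hy' using Algebra.adjoin_induction with
      | mem y hy =>
        obtain ⟨κ, hκ, rfl⟩ := hy
        refine ⟨1, ?_⟩
        have h7 : x κ / s * (s / x v) ^ 1 = x (κ - v) := by
          rw [h.sub]; field_simp
        rw [h7]
        exact ⟨mn O b (κ - v), ev_mn h b _ (hb0 κ hκ)⟩
      | algebraMap r =>
        refine ⟨0, ?_⟩
        rw [pow_zero, mul_one]
        exact (ev O b x).range.algebraMap_mem r
      | add y z hy hz ihy ihz => exact Subring.add_mem _ ihy ihz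
      | mul y z hy hz ihy ihz => exact Subring.mul_mem _ ihy ihz
    · rintro y ⟨c, rfl⟩
      change (ev O b x) c ∈ Pool.Agent.K3h22.COV.Cs A.toSubring (x v / s) hxv
      induction c using MvPolynomial.induction_on with
      | C a =>
        refine ⟨0, ?_⟩
        rw [pow_zero, mul_one]
        have : ev O b x (C a) = algebraMap O K a := by
          unfold ev
          rw [aeval_C]
        rw [this]
        exact A.algebraMap_mem a
      | add c d hc hd => rw [map_add]; exact Subring.add_mem _ hc hd
      | mul_X c i hc =>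
        rw [map_mul]
        refine Subring.mul_mem _ hc ⟨1, ?_⟩
        have : ev O b x (X i) * (x v / s) ^ 1 = x (v + b i) / s := by
          unfold ev
          rw [aeval_X, h.add, pow_one]; ring
        rw [this]
        exact hgen _ (hb i)
  exact key

end Pool.Agent.K3h66.TO
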