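import Pool.Agent.K3h75.TO.StmN
import Pool.Agent.K3h75.TO.Frm

/-!
# Brick FML, part 1: wild elements, conjugation, the norm
-/

set_option autoImplicit false
set_option linter.unusedSectionVars false

open NumberField

namespace Pool.Agent.K3h66.TO.F

open Pool.Agent.Y223.G Pool.Agent.W418.LU2 Pool.Agent.R383.TM Module
open Pool.Agent.K3h75.TO

section arith

variable {E M : Type} [Field E] [NumberField E] [Field M] [NumberField M] [Algebra E M]

theorem ex_iff {I : Ideal (𝓞 M)} {g : M ≃ₐ[E] M} {o : 𝓞 M} :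
    (∃ a ∈ I, (a : M) = g o - o) ↔ TT E M g o - o ∈ I := by
  constructor
  · rintro ⟨a, ha, hao⟩
    have h3 : a = TT E M g o - o := by
      apply RingOfIntegers.coe_injective
      exact hao
    rw [← h3]
    exact ha
  · intro h
    exact ⟨_, h, rfl⟩

theorem isW_iff {I : Ideal (𝓞 M)} {g : M ≃ₐ[E] M} :
    IsW E I g ↔ g ≠ 1 ∧ (∀ o : 𝓞 M, TT E M g o - o ∈ I) ∧ ∀ o ∈ I, TT E M g o - o ∈ I ^ 2 := by
  unfold IsW
  refine and_congr_right fun _ => and_congr ?_ ?_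
  · exact forall_congr' fun o => ex_iff
  · exact forall_congr' fun o => forall_congr' fun _ => ex_iff

theorem TT_mul (g h : M ≃ₐ[E] M) (o : 𝓞 M) : TT E M (g * h) o = TT E M g (TT E M h o) := by
  rw [map_mul]
  rfl

theorem TT_one (o : 𝓞 M) : TT E M (1 : M ≃ₐ[E] M) o = o := by
  rw [map_one]
  rfl

theorem cj_iff {h : M ≃ₐ[E] M} {I J : Ideal (𝓞 M)} (hh : IsCj h I J) (o : 𝓞 M) :
    o ∈ I ↔ TT E M h o ∈ J := hh o _ rfl

theorem cj_pow {h : M ≃ₐ[E] M} {I J : Ideal (𝓞 M)} (hh : IsCj h I J) (n : ℕ) (o : 𝓞 M) :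
    o ∈ I ^ n ↔ TT E M h o ∈ J ^ n := by
  set e : 𝓞 M ≃+* 𝓞 M := (TT E M h).toRingEquiv with he
  have h1 : I.map e = J := by
    ext y
    rw [Ideal.mem_map_of_equiv]
    constructor
    · rintro ⟨z, hz, rfl⟩
      exact (cj_iff hh z).1 hz
    · intro hy
      refine ⟨e.symm y, (cj_iff hh _).2 ?_, e.apply_symm_apply y⟩
      have h2 : TT E M h (e.symm y) = y := e.apply_symm_apply y
      rw [h2]
      exact hy
  have h2 : (I ^ n).map e = J ^ n := by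
    rw [Ideal.map_pow, h1]
  rw [← h2, Ideal.mem_map_of_equiv]
  constructor
  · intro ho
    exact ⟨o, ho, rfl⟩
  · rintro ⟨z, hz, hzo⟩
    have : z = o := e.injective hzo
    rwa [← this]

theorem cj_sub (h g : M ≃ₐ[E] M) (o : 𝓞 M) :
    TT E M (h * g * h⁻¹) (TT E M h o) - TT E M h o = TT E M h (TT E M g o - o) := by
  rw [← TT_mul, inv_mul_cancel_right, TT_mul, map_sub]

theorem cj_surj (h : M ≃ₐ[E] M) (o : 𝓞 M) : ∃ o', TT E M h o' = o :=
  ⟨TT E M h⁻¹ o, by rw [← TT_mul, mul_inv_cancel, TT_one]⟩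

theorem cj_dv {h : M ≃ₐ[E] M} {I J : Ideal (𝓞 M)} (hh : IsCj h I J) (g : M ≃ₐ[E] M) (n : ℕ) :
    (∀ o : 𝓞 M, TT E M g o - o ∈ I ^ n) ↔
      ∀ o : 𝓞 M, TT E M (h * g * h⁻¹) o - o ∈ J ^ n := by
  constructor
  · intro h1 o
    obtain ⟨o', rfl⟩ := cj_surj h o
    rw [cj_sub, ← cj_pow hh]
    exact h1 o'
  · intro h1 o
    rw [cj_pow hh, ← cj_sub]
    exact h1 _

theorem cj_isW {h : M ≃ₐ[E] M} {I J : Ideal (𝓞 M)} (hh : IsCj h I J) (g : M ≃ₐ[E] M) :
    IsW E I g ↔ IsW E J (h * g * h⁻¹) := by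
  rw [isW_iff, isW_iff]
  refine and_congr ?_ (and_congr ?_ ?_)
  · refine not_congr ?_
    rw [mul_inv_eq_one]
    constructor
    · rintro rfl
      rw [mul_one]
    · intro h1
      exact mul_eq_left.1 h1
  · have := cj_dv hh g 1
    rwa [pow_one, pow_one] at this
  · constructor
    · intro h1 o ho
      obtain ⟨o', rfl⟩ := cj_surj h o
      rw [cj_sub, ← cj_pow hh]
      exact h1 o' ((cj_iff hh o').2 ho)
    · intro h1 o ho
      rw [cj_pow hh, ← cj_sub]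
      exact h1 _ ((cj_iff hh o).1 ho)

/-- the depth of the wild elements -/
noncomputable def lw (E : Type) {M : Type} [Field E] [NumberField E] [Field M] [NumberField M]
    [Algebra E M] (I : Ideal (𝓞 M)) : ℕ :=
  sSup {l | ∃ g : M ≃ₐ[E] M, IsW E I g ∧ ∀ o, TT E M g o - o ∈ I ^ (l + 1)}

theorem cj_lw {h : M ≃ₐ[E] M} {I J : Ideal (𝓞 M)} (hh : IsCj h I J) : lw E I = lw E J := by
  unfold lw
  congr 1
  ext l
  constructor
  · rintro ⟨g, hg, hg'⟩
    exact ⟨h * g * h⁻¹, (cj_isW hh g).1 hg, (cj_dv hh g _).1 hg'⟩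
  · rintro ⟨g, hg, hg'⟩
    have h1 : g = h * (h⁻¹ * g * h) * h⁻¹ := by group
    rw [h1] at hg hg'
    exact ⟨h⁻¹ * g * h, (cj_isW hh _).2 hg, (cj_dv hh _ _).2 hg'⟩

theorem dv_pow {I : Ideal (𝓞 M)} {g : M ≃ₐ[E] M} (h : ∀ o, TT E M g o - o ∈ I) (f : ℕ)
    (o : 𝓞 M) : TT E M (g ^ f) o - o ∈ I := by
  induction f generalizing o with
  | zero => rw [pow_zero, TT_one, sub_self]; exact I.zero_mem
  | succ f ih =>
    rw [pow_succ, TT_mul]
    have h1 := I.add_mem (ih (TT E M g o)) (h o)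
    rwa [sub_add_sub_cancel] at h1

theorem gen_pow {G : Type} [Group G] {p : ℕ} (hp : p.Prime) {g : G} (hg : g ^ p = 1) {e : ℕ}
    (h1 : 1 ≤ e) (h2 : e < p) : ∃ f : ℕ, (g ^ e) ^ f = g := by
  have hc : Nat.Coprime e p := (Nat.coprime_of_lt_prime (by omega) h2 hp).symm
  obtain ⟨f, -, hf⟩ := Nat.exists_mul_mod_eq_one_of_coprime hc hp.one_lt
  refine ⟨f, ?_⟩
  rw [← pow_mul]
  have h3 := Nat.div_add_mod (e * f) p
  rw [hf] at h3
  rw [← h3, pow_add, pow_mul, hg, one_pow, one_mul, pow_one]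

theorem lw_eq {I : Ideal (𝓞 M)} {g : M ≃ₐ[E] M} (hg : IsW E I g) {p l : ℕ} (hp : p.Prime)
    (hgp : g ^ p = 1) (hdv : ∀ o : 𝓞 M, TT E M g o - o ∈ I ^ (l + 1))
    (hun : ∃ π ∈ I, TT E M g π - π ∉ I ^ (l + 2))
    (hal : ∀ h : M ≃ₐ[E] M, IsW E I h ↔ ∃ e : ℕ, 1 ≤ e ∧ e < p ∧ h = g ^ e) : lw E I = l := by
  have hb : ∀ l' ∈ {l | ∃ g : M ≃ₐ[E] M, IsW E I g ∧ ∀ o, TT E M g o - o ∈ I ^ (l + 1)},
      l' ≤ l := by
    rintro l' ⟨h, hh, hh'⟩
    obtain ⟨e, h1, h2, rfl⟩ := (hal h).1 hh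
    obtain ⟨f, hf⟩ := gen_pow hp hgp h1 h2
    by_contra hcon
    push Not at hcon
    obtain ⟨π, hπ, hπ'⟩ := hun
    refine hπ' (Ideal.pow_le_pow_right (show l + 2 ≤ l' + 1 by omega) ?_)
    have h3 := dv_pow hh' f π
    rwa [hf] at h3
  refine le_antisymm (csSup_le ⟨l, g, hg, hdv⟩ hb) (le_csSup ⟨l, hb⟩ ⟨g, hg, hdv⟩)

end arith

section norm

variable {Λ G : Type} [AddCommGroup Λ] [Group G] [DistribMulAction G Λ]

/-- the action on the lattice -/
def ta (Λ : Type) {G : Type} [AddCommGroup Λ] [Group G] [DistribMulAction G Λ] (g : G) :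
    Λ →+ Λ := DistribSMul.toAddMonoidHom Λ g

theorem ta_iter (g : G) (k : ℕ) (a : Λ) : (ta Λ g)^[k] a = g ^ k • a := by
  induction k generalizing a with
  | zero => rw [pow_zero, one_smul]; rfl
  | succ k ih =>
    rw [Function.iterate_succ_apply, ih, pow_succ, mul_smul]
    rfl

theorem Nm_zp [DecidableEq G] (g : G) (a : Λ) : Nm (ta Λ g) (orderOf g) a =
    ∑ γ ∈ (Finset.range (orderOf g)).image (fun i => g ^ i), γ • a := by
  unfold Nm
  rw [Finset.sum_image]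
  · exact Finset.sum_congr rfl fun k _ => ta_iter g k a
  · intro i hi j hj hij
    exact pow_injOn_Iio_orderOf (by simpa using hi) (by simpa using hj) hij

theorem ord_eq {p : ℕ} (hp : p.Prime) {g : G} (hg : g ^ p = 1) {e : ℕ} (h1 : 1 ≤ e) (h2 : e < p)
    (hg1 : g ≠ 1) : orderOf (g ^ e) = p := by
  have : Fact p.Prime := ⟨hp⟩
  refine orderOf_eq_prime_iff.2 ⟨by rw [← pow_mul, mul_comm, pow_mul, hg, one_pow], ?_⟩
  intro h
  obtain ⟨f, hf⟩ := gen_pow hp hg h1 h2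
  rw [h, one_pow] at hf
  exact hg1 hf.symm

theorem Nm_gen [Finite G] {p : ℕ} (hp : p.Prime) {g : G} (hg : g ^ p = 1) {e : ℕ} (h1 : 1 ≤ e)
    (h2 : e < p) (hg1 : g ≠ 1) (a : Λ) : Nm (ta Λ (g ^ e)) p a = Nm (ta Λ g) p a := by
  classical
  have := Fintype.ofFinite G
  have ho := ord_eq hp hg h1 h2 hg1
  have ho' := ord_eq hp hg le_rfl hp.one_lt hg1
  rw [pow_one] at ho'
  have h3 := Nm_zp (Λ := Λ) (g ^ e) a
  have h4 := Nm_zp (Λ := Λ) g a
  have h5 : Subgroup.zpowers (g ^ e) = Subgroup.zpowers g := by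
    apply le_antisymm
    · rw [Subgroup.zpowers_le]
      exact Subgroup.npow_mem_zpowers g e
    · rw [Subgroup.zpowers_le]
      obtain ⟨f, hf⟩ := gen_pow hp hg h1 h2
      have h6 : (g ^ e) ^ f ∈ Subgroup.zpowers (g ^ e) := Subgroup.npow_mem_zpowers _ f
      rwa [hf] at h6
  have h7 : (Finset.range (orderOf (g ^ e))).image (fun i => (g ^ e) ^ i) =
      (Finset.range (orderOf g)).image (fun i => g ^ i) := by
    ext γ
    rw [← mem_zpowers_iff_mem_range_orderOf, ← mem_zpowers_iff_mem_range_orderOf, h5]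
  rw [h7, ho] at h3
  rw [ho'] at h4
  rw [h3, h4, ho']

theorem Nm_cj (h g : G) (p : ℕ) (a : Λ) : Nm (ta Λ (h * g * h⁻¹)) p (h • a) =
    h • Nm (ta Λ g) p a := by
  unfold Nm
  rw [Finset.smul_sum]
  refine Finset.sum_congr rfl fun k _ => ?_
  rw [ta_iter, ta_iter, ← mul_smul, ← mul_smul, conj_pow, inv_mul_cancel_right]

end norm

end Pool.Agent.K3h66.TO.F
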