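import Pool.Agent.K3h66.TO.Fml1
import Pool.Agent.K3h66.TO.CHT

/-!
# Brick FML, part 2: the raw family
-/

set_option autoImplicit false
set_option linter.unusedSectionVars false

open NumberField

namespace Pool.Agent.K3h66.TO.F

open Pool.Agent.Y223.G Pool.Agent.W418.LU2 Pool.Agent.R383.TM Module
open Pool.Agent.K3h75.TO

section data

variable {E M : Type} [Field E] [NumberField E] [Field M] [NumberField M] [Algebra E M]
  {Λ : Type} [AddCommGroup Λ] [DistribMulAction (M ≃ₐ[E] M) Λ] {K : Type} [Field K] [Algebra M K]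
  [Algebra E K] [IsScalarTower E M K]

/-- the raw indices -/
abbrev JJ (E M : Type) [Field E] [Field M] [Algebra E M] {Λ : Type} (P : Finset Λ) : Type :=
  ↥P ⊕ ((M ≃ₐ[E] M) × Fin (Nat.card (M ≃ₐ[E] M)) × ↥P × ↥P)

/-- the values -/
def val (ρ : (M ≃ₐ[E] M) →* (K ≃ₐ[E] K)) (x : Λ → K) {P : Finset Λ} : JJ E M P → K
  | Sum.inl μ => x μ
  | Sum.inr j => (df (ρ j.1))^[(j.2.1 : ℕ)] (x j.2.2.1 - x j.2.2.2)

open Classical in
/-- the weights -/
noncomputable def wt {P : Finset Λ} (I : Ideal (𝓞 M)) : JJ E M P → ℕ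
  | Sum.inl _ => 0
  | Sum.inr j => if IsW E I j.1 ∧ (j.2.1 : ℕ) < orderOf j.1 ∧
      Nm (ta Λ j.1) (orderOf j.1) ((j.2.2.1 : Λ) - j.2.2.2) = 0 then (j.2.1 + 1) * lw E I else 0

/-- conjugation of the indices -/
def cj {P : Finset Λ} (hst : ∀ (g : M ≃ₐ[E] M), ∀ μ ∈ P, g • μ ∈ P) (h : M ≃ₐ[E] M) :
    JJ E M P → JJ E M P
  | Sum.inl μ => Sum.inl ⟨h • (μ : Λ), hst h μ μ.2⟩
  | Sum.inr j => Sum.inr (h * j.1 * h⁻¹, j.2.1, ⟨h • (j.2.2.1 : Λ), hst h _ j.2.2.1.2⟩,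
      ⟨h • (j.2.2.2 : Λ), hst h _ j.2.2.2.2⟩)

variable {ρ : (M ≃ₐ[E] M) →* (K ≃ₐ[E] K)} {x : Λ → K} {P : Finset Λ}

theorem df_cj (h g : M ≃ₐ[E] M) (a : ℕ) (y : K) :
    (df (ρ (h * g * h⁻¹)))^[a] (ρ h y) = ρ h ((df (ρ g))^[a] y) := by
  induction a generalizing y with
  | zero => rfl
  | succ a ih =>
    rw [Function.iterate_succ_apply, Function.iterate_succ_apply, ← ih]
    congr 1
    change ρ (h * g * h⁻¹) (ρ h y) - ρ h y = ρ h (ρ g y - y)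
    have h1 : ρ (h * g * h⁻¹) (ρ h y) = ρ h (ρ g y) := by
      rw [← AlgEquiv.mul_apply, ← map_mul, inv_mul_cancel_right, map_mul, AlgEquiv.mul_apply]
    rw [h1, map_sub]

theorem val_cj (hst : ∀ (g : M ≃ₐ[E] M), ∀ μ ∈ P, g • μ ∈ P)
    (hact : ∀ g a, ρ g (x a) = x (g • a)) (h : M ≃ₐ[E] M) (i : JJ E M P) :
    val ρ x (cj hst h i) = ρ h (val ρ x i) := by
  rcases i with μ | ⟨g, a, μ, ν⟩
  · exact (hact h μ).symm
  · change (df (ρ (h * g * h⁻¹)))^[(a : ℕ)] (x (h • (μ : Λ)) - x (h • (ν : Λ))) =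
      ρ h ((df (ρ g))^[(a : ℕ)] (x μ - x ν))
    rw [← df_cj, map_sub, hact, hact]

theorem ord_cj {G : Type} [Group G] (h g : G) : orderOf (h * g * h⁻¹) = orderOf g := by
  rw [orderOf_eq_orderOf_iff]
  intro n
  rw [conj_pow, mul_inv_eq_one, mul_eq_left]

theorem wt_cj (hst : ∀ (g : M ≃ₐ[E] M), ∀ μ ∈ P, g • μ ∈ P) {h : M ≃ₐ[E] M}
    {I J : Ideal (𝓞 M)} (hh : IsCj h I J) (i : JJ E M P) :
    wt J (cj hst h i) = wt I i := by
  classical
  rcases i with μ | ⟨g, a, μ, ν⟩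
  · rfl
  · have h1 : (IsW E J (h * g * h⁻¹) ∧ (a : ℕ) < orderOf (h * g * h⁻¹) ∧
        Nm (ta Λ (h * g * h⁻¹)) (orderOf (h * g * h⁻¹)) (h • (μ : Λ) - h • (ν : Λ)) = 0) ↔
        (IsW E I g ∧ (a : ℕ) < orderOf g ∧ Nm (ta Λ g) (orderOf g) ((μ : Λ) - ν) = 0) := by
      rw [← cj_isW hh, ord_cj, ← smul_sub, Nm_cj, smul_eq_zero_iff_eq]
    change (if IsW E J (h * g * h⁻¹) ∧ (a : ℕ) < orderOf (h * g * h⁻¹) ∧
        Nm (ta Λ (h * g * h⁻¹)) (orderOf (h * g * h⁻¹)) (h • (μ : Λ) - h • (ν : Λ)) = 0 then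
        ((a : ℕ) + 1) * lw E J else 0) = if IsW E I g ∧ (a : ℕ) < orderOf g ∧
        Nm (ta Λ g) (orderOf g) ((μ : Λ) - ν) = 0 then ((a : ℕ) + 1) * lw E I else 0
    rw [cj_lw hh]
    simp only [h1]

theorem cl_rho (hst : ∀ (g : M ≃ₐ[E] M), ∀ μ ∈ P, g • μ ∈ P)
    (hact : ∀ g a, ρ g (x a) = x (g • a)) (g : M ≃ₐ[E] M) {y : K}
    (hy : y ∈ AddSubgroup.closure (x '' (P : Set Λ))) :
    ρ g y ∈ AddSubgroup.closure (x '' (P : Set Λ)) := by
  induction hy using AddSubgroup.closure_induction with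
  | mem y hy =>
    obtain ⟨μ, hμ, rfl⟩ := hy
    rw [hact]
    exact AddSubgroup.subset_closure ⟨g • μ, hst g μ hμ, rfl⟩
  | zero => rw [map_zero]; exact AddSubgroup.zero_mem _
  | add y z _ _ hy hz => rw [map_add]; exact AddSubgroup.add_mem _ hy hz
  | neg y _ hy => rw [map_neg]; exact AddSubgroup.neg_mem _ hy

theorem val_cl (hst : ∀ (g : M ≃ₐ[E] M), ∀ μ ∈ P, g • μ ∈ P)
    (hact : ∀ g a, ρ g (x a) = x (g • a)) (i : JJ E M P) :
    val ρ x i ∈ AddSubgroup.closure (x '' (P : Set Λ)) := by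
  rcases i with μ | ⟨g, a, μ, ν⟩
  · exact AddSubgroup.subset_closure ⟨μ, μ.2, rfl⟩
  · have h1 : ∀ (a : ℕ) (y : K), y ∈ AddSubgroup.closure (x '' (P : Set Λ)) →
        (df (ρ g))^[a] y ∈ AddSubgroup.closure (x '' (P : Set Λ)) := by
      intro a
      induction a with
      | zero => intro y hy; exact hy
      | succ a ih =>
        intro y hy
        rw [Function.iterate_succ_apply]
        exact ih _ (AddSubgroup.sub_mem _ (cl_rho hst hact g hy) hy)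
    exact h1 _ _ (AddSubgroup.sub_mem _ (AddSubgroup.subset_closure ⟨μ, μ.2, rfl⟩)
      (AddSubgroup.subset_closure ⟨ν, ν.2, rfl⟩))

theorem cl_span {y : K} (hy : y ∈ AddSubgroup.closure (x '' (P : Set Λ))) :
    y ∈ Submodule.span (𝓞 M) (x '' (P : Set Λ)) := by
  have h1 : AddSubgroup.closure (x '' (P : Set Λ)) ≤
      (Submodule.span (𝓞 M) (x '' (P : Set Λ))).toAddSubgroup := by
    rw [AddSubgroup.closure_le]
    exact Submodule.subset_span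
  exact h1 hy

/-- The family `z` is the family of the nonzero values. -/
structure EN (ρ : (M ≃ₐ[E] M) →* (K ≃ₐ[E] K)) (x : Λ → K) (P : Finset Λ) {m : ℕ}
    (z : Fin (m + 1) → K) (w : Ideal (𝓞 M) → Fin (m + 1) → ℕ) : Prop where
  fwd : ∀ j, ∃ i : JJ E M P, z j = val ρ x i ∧ val ρ x i ≠ 0 ∧ ∀ I, w I j = wt I i
  bwd : ∀ i : JJ E M P, val ρ x i ≠ 0 → ∃ j, z j = val ρ x i ∧ ∀ I, w I j = wt I i

theorem exists_EN [Finite (M ≃ₐ[E] M)] (ρ : (M ≃ₐ[E] M) →* (K ≃ₐ[E] K)) (x : Λ → K)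
    (P : Finset Λ) (hP : P.Nonempty) (hx : ∀ a, x a ≠ 0) :
    ∃ (m : ℕ) (z : Fin (m + 1) → K) (w : Ideal (𝓞 M) → Fin (m + 1) → ℕ), EN ρ x P z w := by
  obtain ⟨μ, hμ⟩ := hP
  have hne : Nonempty {i : JJ E M P // val ρ x i ≠ 0} := ⟨⟨Sum.inl ⟨μ, hμ⟩, hx μ⟩⟩
  obtain ⟨n, ⟨ε⟩⟩ := Finite.exists_equiv_fin {i : JJ E M P // val ρ x i ≠ 0}
  have hn : n ≠ 0 := by
    rintro rfl
    exact Fin.elim0 (ε hne.some)
  obtain ⟨m, rfl⟩ := Nat.exists_eq_succ_of_ne_zero hn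
  refine ⟨m, fun j => val ρ x (ε.symm j).1, fun I j => wt I (ε.symm j).1, ?_, ?_⟩
  · intro j
    exact ⟨_, rfl, (ε.symm j).2, fun _ => rfl⟩
  · intro i hi
    refine ⟨ε ⟨i, hi⟩, ?_, ?_⟩
    · simp only [Equiv.symm_apply_apply]
    · intro I
      simp only [Equiv.symm_apply_apply]

end data

section wild

variable {E M : Type} [Field E] [NumberField E] [Field M] [NumberField M] [Algebra E M]
  [Finite (M ≃ₐ[E] M)]
  {Λ : Type} [AddCommGroup Λ] [DistribMulAction (M ≃ₐ[E] M) Λ] {K : Type} [Field K] [Algebra M K]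
  [Algebra E K] [IsScalarTower E M K]
  {ρ : (M ≃ₐ[E] M) →* (K ≃ₐ[E] K)} {x : Λ → K} {P : Finset Λ}

/-- the data of a wild prime -/
structure WN (ρ : (M ≃ₐ[E] M) →* (K ≃ₐ[E] K)) (x : Λ → K) (I : Ideal (𝓞 M)) (g : M ≃ₐ[E] M)
    (p l : ℕ) : Prop where
  wd : Wd Λ (𝓞 M) K x (ρ g).toRingEquiv (TT E M g).toRingEquiv (ta Λ g) p l I
  wi : IsW E I g
  gp : g ^ p = 1
  lw : lw E I = l
  al : ∀ h : M ≃ₐ[E] M, IsW E I h ↔ ∃ e : ℕ, 1 ≤ e ∧ e < p ∧ h = g ^ e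

variable {I : Ideal (𝓞 M)} {g : M ≃ₐ[E] M} {p l : ℕ}

theorem rho_iter (e : ℕ) : (⇑(ρ g).toRingEquiv)^[e] = ⇑(ρ (g ^ e)) := by
  funext y
  induction e generalizing y with
  | zero => rw [pow_zero, map_one]; rfl
  | succ e ih =>
    rw [Function.iterate_succ_apply, ih, pow_succ, map_mul]
    rfl

/-- the weights at a wild prime -/
theorem cls (h : WN ρ x I g p l) (i : JJ E M P) : wt I i = 0 ∨
    ∃ (e a : ℕ) (μ ν : Λ), 1 ≤ e ∧ e < p ∧ a < p ∧ μ ∈ P ∧ ν ∈ P ∧ Nm (ta Λ g) p (μ - ν) = 0 ∧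
      wt I i = (a + 1) * l ∧
      val ρ x i = (df ((⇑(ρ g).toRingEquiv)^[e]))^[a] (x μ - x ν) := by
  classical
  rcases i with μ | ⟨k, a, μ, ν⟩
  · exact Or.inl rfl
  · by_cases hc : IsW E I k ∧ (a : ℕ) < orderOf k ∧ Nm (ta Λ k) (orderOf k) ((μ : Λ) - ν) = 0
    · right
      obtain ⟨h1, h2, h3⟩ := hc
      obtain ⟨e, he1, he2, rfl⟩ := (h.al k).1 h1
      have ho := ord_eq h.wd.pp h.gp he1 he2 h.wi.1
      have h4 : wt I (Sum.inr (g ^ e, a, μ, ν) : JJ E M P) = ((a : ℕ) + 1) * l := by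
        change (if _ then _ else _) = _
        rw [if_pos ⟨h1, h2, h3⟩, h.lw]
      rw [ho] at h2 h3
      refine ⟨e, a, μ, ν, he1, he2, h2, μ.2, ν.2, ?_, h4, ?_⟩
      · rw [← Nm_gen h.wd.pp h.gp he1 he2 h.wi.1]
        exact h3
      · rw [rho_iter]
        rfl
    · left
      change (if _ then _ else _) = _
      rw [if_neg hc]

theorem cls' (h : WN ρ x I g p l) {e a : ℕ} {μ ν : Λ} (h1 : 1 ≤ e) (h2 : e < p) (h3 : a < p)
    (h4 : μ ∈ P) (h5 : ν ∈ P) (h6 : Nm (ta Λ g) p (μ - ν) = 0) :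
    ∃ i : JJ E M P, wt I i = (a + 1) * l ∧
      val ρ x i = (df ((⇑(ρ g).toRingEquiv)^[e]))^[a] (x μ - x ν) := by
  classical
  have ho := ord_eq h.wd.pp h.gp h1 h2 h.wi.1
  have hc : a < Nat.card (M ≃ₐ[E] M) := by
    refine lt_of_lt_of_le h3 ?_
    rw [← ho]
    exact Nat.le_of_dvd Nat.card_pos (orderOf_dvd_natCard _)
  refine ⟨Sum.inr (g ^ e, ⟨a, hc⟩, ⟨μ, h4⟩, ⟨ν, h5⟩), ?_, ?_⟩
  · change (if _ then _ else _) = _
    rw [if_pos, h.lw]
    refine ⟨(h.al _).2 ⟨e, h1, h2, rfl⟩, ?_, ?_⟩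
    · rw [ho]
      exact h3
    · rw [ho, Nm_gen h.wd.pp h.gp h1 h2 h.wi.1]
      exact h6
  · rw [rho_iter]
    rfl

variable (hst : ∀ (g : M ≃ₐ[E] M), ∀ μ ∈ P, g • μ ∈ P) (hact : ∀ g a, ρ g (x a) = x (g • a))

include hst hact in
theorem v_mem (h : WN ρ x I g p l) (s : K) (i : JJ E M P) :
    hm (wt I i) (val ρ x i / s) ∈ WB x (ρ g).toRingEquiv (ta Λ g) p l I P s := by
  rcases cls h i with h1 | ⟨e, a, μ, ν, h1, h2, h3, h4, h5, h6, h7, h8⟩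
  · rw [h1]
    exact T.mem_sp (cl_span (val_cl hst hact i))
  · rw [h7, h8]
    exact WB_D h1 h2 h3 h4 h5 h6

include hst hact in
theorem v_lin (h : WN ρ x I g p l) (s : K) (i : JJ E M P) :
    hm ((wt I i : ℤ) + l) ((ρ g (val ρ x i) - val ρ x i) / s) ∈
      WB x (ρ g).toRingEquiv (ta Λ g) p l I P s := by
  have hst' : ∀ a ∈ P, ta Λ g a ∈ P := fun a ha => hst g a ha
  rcases cls h i with h1 | ⟨e, a, μ, ν, h1, h2, h3, h4, h5, h6, h7, h8⟩
  · rw [h1]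
    have h2 : ∀ y ∈ AddSubgroup.closure (x '' (P : Set Λ)), ρ g y - y ∈
        Vd s x (ρ g).toRingEquiv (ta Λ g) p l I P l := by
      intro y hy
      induction hy using AddSubgroup.closure_induction with
      | mem y hy =>
        obtain ⟨μ, hμ, rfl⟩ := hy
        exact h.wd.frm0 hst' s hμ
      | zero => rw [map_zero, sub_self]; exact AddSubgroup.zero_mem _
      | add y z _ _ hy hz => rw [map_add, add_sub_add_comm]; exact AddSubgroup.add_mem _ hy hz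
      | neg y _ hy => rw [map_neg, ← neg_sub']; exact AddSubgroup.neg_mem _ hy
    have h3 := h2 _ (val_cl hst hact i)
    rw [mem_Vd] at h3
    convert h3 using 2
    simp
  · have h9 := h.wd.frm1 hst' s h1 h2 h3 h4 h5 h6
    rw [mem_Vd] at h9
    rw [h7, h8]
    exact h9

include hst hact in
theorem BR_WB (h : WN ρ x I g p l) {m : ℕ} {z : Fin (m + 1) → K}
    {w : Ideal (𝓞 M) → Fin (m + 1) → ℕ} (hE : EN ρ x P z w) (j : Fin (m + 1)) :
    BR I 1 (w I) z j = (WB x (ρ g).toRingEquiv (ta Λ g) p l I P (z j)).toSubring := by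
  apply le_antisymm
  · intro f hf
    change f ∈ Algebra.adjoin (𝓞 M) ({mo 1 (-1)} ∪
      {f | ∃ a ∈ I, f = mo (algebraMap (𝓞 M) K a) (1 : ℕ)} ∪
      Set.range fun i => mo (z i / z j) (w I i)) at hf
    change f ∈ WB x (ρ g).toRingEquiv (ta Λ g) p l I P (z j)
    induction hf using Algebra.adjoin_induction with
    | mem y hy =>
      rcases hy with (hy | ⟨a, ha, rfl⟩) | ⟨i, rfl⟩
      · rw [Set.mem_singleton_iff] at hy
        rw [hy, mo_eq]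
        exact WB_T
      · rw [mo_eq]
        exact WB_e ha
      · change mo (z i / z j) (w I i) ∈ _
        rw [mo_eq]
        obtain ⟨k, hk1, -, hk2⟩ := hE.fwd i
        rw [hk1, hk2]
        exact v_mem hst hact h (z j) k
    | algebraMap r => exact Subalgebra.algebraMap_mem _ r
    | add x y _ _ hx hy => exact Subalgebra.add_mem _ hx hy
    | mul x y _ _ hx hy => exact Subalgebra.mul_mem _ hx hy
  · intro f hf
    change f ∈ WB x (ρ g).toRingEquiv (ta Λ g) p l I P (z j) at hf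
    change f ∈ Algebra.adjoin (𝓞 M) ({mo 1 (-1)} ∪
      {f | ∃ a ∈ I, f = mo (algebraMap (𝓞 M) K a) (1 : ℕ)} ∪
      Set.range fun i => mo (z i / z j) (w I i))
    have hv : ∀ (i : JJ E M P) (d : ℤ), d = wt I i → hm d (val ρ x i / z j) ∈
        Algebra.adjoin (𝓞 M) ({mo 1 (-1)} ∪
          {f | ∃ a ∈ I, f = mo (algebraMap (𝓞 M) K a) (1 : ℕ)} ∪
          Set.range fun i => mo (z i / z j) (w I i)) := by
      intro i d hd
      by_cases h0 : val ρ x i = 0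
      · rw [h0, zero_div, hm_zero]
        exact Subalgebra.zero_mem _
      · obtain ⟨k, hk1, hk2⟩ := hE.bwd i h0
        rw [hd, ← hk1, ← hk2, ← mo_eq]
        exact Algebra.subset_adjoin (Or.inr ⟨k, rfl⟩)
    unfold WB at hf
    induction hf using Algebra.adjoin_induction with
    | mem y hy =>
      obtain (((rfl | ⟨e, he, rfl⟩) | ⟨μ, hμ, rfl⟩) |
        ⟨e, a, μ, ν, h1, h2, h3, h4, h5, h6, rfl⟩) := hy
      · rw [← mo_eq]
        exact Algebra.subset_adjoin (Or.inl (Or.inl rfl))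
      · rw [← mo_eq]
        exact Algebra.subset_adjoin (Or.inl (Or.inr ⟨e, he, rfl⟩))
      · exact hv (Sum.inl ⟨μ, hμ⟩) 0 rfl
      · obtain ⟨i, hi1, hi2⟩ := cls' h h1 h2 h3 h4 h5 h6
        rw [← hi2]
        exact hv i _ (by rw [hi1])
    | algebraMap r => exact Subalgebra.algebraMap_mem _ r
    | add x y _ _ hx hy => exact Subalgebra.add_mem _ hx hy
    | mul x y _ _ hx hy => exact Subalgebra.mul_mem _ hx hy

end wild

end Pool.Agent.K3h66.TO.F
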